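import Pool.Agent.Q149.BD.U2

set_option autoImplicit false

/-!
# Project BD, job U: limits and the choice of the localised weights
-/

namespace Pool.Agent.Q149.BD

open Complex MeasureTheory Filter Topology Set Pool.Agent.Q286.BD

/-- the limit of the localising polynomials -/
noncomputable def qq (e x : ℝ) : ℂ := ∫ v in (0 : ℝ)..1, cexp (-(e * x * v * I))

theorem qq_norm_le (e x : ℝ) : ‖qq e x‖ ≤ 1 := by
  unfold qq
  have := intervalIntegral.norm_integral_le_of_norm_le_const (a := (0 : ℝ)) (b := 1) (C := 1)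
    (f := fun v : ℝ => cexp (-(e * x * v * I))) (fun v _ => by
      have : (-(e * x * v * I) : ℂ) = ((-(e * x * v) : ℝ) : ℂ) * I := by push_cast; ring
      rw [this, Complex.norm_exp_ofReal_mul_I])
  simpa using this

theorem qq_continuous : Continuous fun p : ℝ × ℝ => qq p.1 p.2 := by
  unfold qq
  refine intervalIntegral.continuous_parametric_intervalIntegral_of_continuous' (by fun_prop) 0 1

theorem qq_cont_right (e : ℝ) : Continuous fun x : ℝ => qq e x := by
  have h : Continuous fun x : ℝ => ((e, x) : ℝ × ℝ) := by fun_prop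
  have h2 := qq_continuous.comp h
  simp only [Function.comp_def] at h2
  exact h2

theorem qq_cont_left (x : ℝ) : Continuous fun e : ℝ => qq e x := by
  have h : Continuous fun e : ℝ => ((e, x) : ℝ × ℝ) := by fun_prop
  have h2 := qq_continuous.comp h
  simp only [Function.comp_def] at h2
  exact h2

theorem qq_zero (x : ℝ) : qq 0 x = 1 := by
  unfold qq
  simp

theorem Fm_continuous {β : ℝ} {φ : ℝ → ℝ} (h : Wt β φ) (m : ℕ) : Continuous fun x : ℝ => Fm m φ x := by
  have hs : ∀ u : ℝ, u ∉ Icc (0 : ℝ) 1 → φ u = 0 := by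
    obtain ⟨ε, hε, h2⟩ := h.supp
    intro u hu
    by_contra hne
    exact hu ⟨hε.le.trans (h2 u hne).1, (h2 u hne).2⟩
  have e : (fun x : ℝ => Fm m φ x) = fun x : ℝ => -∫ u in (0 : ℝ)..1, (φ u : ℂ) * cexp (-(x * u * I)) *
      ∑ j ∈ Finset.range m, ((x * u * I) ^ j / (j.factorial : ℂ)) := by
    funext x
    unfold Fm
    congr 1
    rw [intervalIntegral.integral_of_le zero_le_one, ← integral_Icc_eq_integral_Ioc,
      setIntegral_eq_integral_of_forall_compl_eq_zero]
    intro u hu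
    rw [hs u hu]
    simp
  rw [e]
  refine Continuous.neg ?_
  have hc := h.cont
  refine intervalIntegral.continuous_parametric_intervalIntegral_of_continuous' ?_ 0 1
  fun_prop

theorem tendsto_cost_aux {F H : ℝ → ℂ} (c1 : Continuous F) (c2 : Continuous H)
    (i1 : Integrable (fun x : ℝ => ‖F x‖ ^ 2)) (i2 : Integrable (fun x : ℝ => ‖H x‖ ^ 2)) :
    Tendsto (fun e : ℝ => ∫ x : ℝ, ‖F x + qq e x * (H x - F x)‖ ^ 2) (𝓝[>] 0)
      (𝓝 (∫ x : ℝ, ‖H x‖ ^ 2)) := by
  refine tendsto_integral_filter_of_dominated_convergence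
    (fun x : ℝ => 8 * ‖F x‖ ^ 2 + 2 * ‖H x‖ ^ 2) ?_ ?_ ?_ ?_
  · refine Eventually.of_forall fun e => ?_
    have c3 : Continuous fun x : ℝ => qq e x := qq_cont_right e
    exact ((c1.add (c3.mul (c2.sub c1))).norm.pow 2).aestronglyMeasurable
  · refine Eventually.of_forall fun e => Eventually.of_forall fun x => ?_
    rw [Real.norm_of_nonneg (by positivity)]
    have h1 : ‖F x + qq e x * (H x - F x)‖ ≤ 2 * ‖F x‖ + ‖H x‖ := by
      refine (norm_add_le _ _).trans ?_
      rw [norm_mul]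
      have h2 : ‖qq e x‖ * ‖H x - F x‖ ≤ 1 * (‖H x‖ + ‖F x‖) :=
        mul_le_mul (qq_norm_le e x) (norm_sub_le _ _) (norm_nonneg _) zero_le_one
      linarith
    have h3 : ‖F x + qq e x * (H x - F x)‖ ^ 2 ≤ (2 * ‖F x‖ + ‖H x‖) ^ 2 := by
      gcongr
    nlinarith [sq_nonneg (2 * ‖F x‖ - ‖H x‖)]
  · exact (i1.const_mul 8).add (i2.const_mul 2)
  · refine Eventually.of_forall fun x => ?_
    have c3 : Continuous fun e : ℝ => qq e x := qq_cont_left x
    have h1 : Continuous fun e : ℝ => ‖F x + qq e x * (H x - F x)‖ ^ 2 := by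
      fun_prop
    have h2 := (h1.tendsto 0).mono_left (nhdsWithin_le_nhds (s := Ioi 0))
    simp only [qq_zero, one_mul] at h2
    have e1 : F x + (H x - F x) = H x := by ring
    rw [e1] at h2
    exact h2

/-- the squared norm of the limit of the localised mollifier converges as `e → 0` -/
theorem tendsto_cost {β : ℝ} {φ ψ : ℝ → ℝ} (hφ : Wt β φ) (hψ : Wt β ψ) (m : ℕ)
    (i1 : Integrable (fun x : ℝ => ‖Fm m φ x‖ ^ 2)) (i2 : Integrable (fun x : ℝ => ‖Fm m ψ x‖ ^ 2)) :
    Tendsto (fun e : ℝ => ∫ x : ℝ, ‖Fm m φ x + qq e x * (Fm m ψ x - Fm m φ x)‖ ^ 2) (𝓝[>] 0)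
      (𝓝 (∫ x : ℝ, ‖Fm m ψ x‖ ^ 2)) :=
  tendsto_cost_aux (Fm_continuous hφ m) (Fm_continuous hψ m) i1 i2

end Pool.Agent.Q149.BD
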