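import Pool.Agent.Q260.DS.Stm5
import Pool.Agent.H31R2.DH.Back
import Pool.Agent.Q144.DJ.TC

/-! # Job BD-FB of project BD (helper260), by helper149 -/

set_option autoImplicit false

namespace Pool.Agent.Q149.BD

open Complex Filter Topology Metric Set
open Pool.Agent.Q260.DS

/-- the order of a rescaled function -/
theorem mult_scale {g : ℂ → ℂ} {c a : ℂ} {ρ : ℝ} (hρ : ρ ≠ 0) (ha : a ≠ 0) {z : ℂ}
    (hg : AnalyticAt ℂ g (c + ρ * z)) :
    H370.mult (fun w => g (c + ρ * w) * a) z = analyticOrderNatAt g (c + ρ * z) := by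
  have hρ' : (ρ : ℂ) ≠ 0 := by exact_mod_cast hρ
  have h0 : AnalyticAt ℂ (fun w : ℂ => c + ρ * w) z := by fun_prop
  have hd : deriv (fun w : ℂ => c + ρ * w) z ≠ 0 := by
    have : HasDerivAt (fun w : ℂ => c + ρ * w) (0 + ρ * 1) z :=
      (hasDerivAt_const z c).add ((hasDerivAt_id z).const_mul (ρ : ℂ))
    rw [this.deriv]
    simpa using hρ'
  have h1 : analyticOrderAt (g ∘ fun w : ℂ => c + ρ * w) z = analyticOrderAt g (c + ρ * z) :=
    analyticOrderAt_comp_of_deriv_ne_zero h0 hd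
  have h2 : AnalyticAt ℂ (g ∘ fun w : ℂ => c + ρ * w) z :=
    AnalyticAt.comp (g := g) (f := fun w : ℂ => c + ρ * w) hg h0
  have h3 : AnalyticAt ℂ (fun _ : ℂ => a) z := analyticAt_const
  have h4 := analyticOrderAt_mul h2 h3
  have h5 : analyticOrderAt (fun _ : ℂ => a) z = 0 := h3.analyticOrderAt_eq_zero.2 ha
  rw [h5, add_zero, h1] at h4
  unfold H370.mult analyticOrderNatAt
  have h6 : (fun w => g (c + ρ * w) * a) = (g ∘ fun w : ℂ => c + ρ * w) * fun _ : ℂ => a := rfl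
  rw [h6, h4]

/-- the size near the centre -/
theorem near_centre {g : ℂ → ℂ} {c : ℂ} {C0 : ℝ} (hC0 : 0 ≤ C0)
    (hg : DifferentiableOn ℂ g (ball c (5 / 4)))
    (hl : ∀ w ∈ closedBall c (5 / 4), g w ≠ 0 ∧ ‖logDeriv g w‖ ≤ C0) {w : ℂ}
    (hw : w ∈ ball c (5 / 4)) : ‖g w‖ ≤ Real.exp (2 * C0) * ‖g c‖ := by
  obtain ⟨h, hh, hc, hgh⟩ := Pool.Agent.Q144.DJ.exists_log' (by norm_num) hg
    (fun z hz => (hl z (ball_subset_closedBall hz)).1)
  have h5 := (convex_ball c (5 / 4 : ℝ)).norm_image_sub_le_of_norm_hasDerivWithin_le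
    (fun x hx => (hh x hx).hasDerivWithinAt) (fun x hx => (hl x (ball_subset_closedBall hx)).2)
    (mem_ball_self (by norm_num)) hw
  rw [hc, sub_zero] at h5
  rw [mem_ball, dist_eq_norm] at hw
  have h6 : ‖h w‖ ≤ 2 * C0 := by
    have := norm_nonneg (w - c)
    nlinarith
  rw [hgh w (by rw [mem_ball, dist_eq_norm]; exact hw), norm_mul, Complex.norm_exp, mul_comm]
  have := Complex.re_le_norm (h w)
  gcongr
  linarith

theorem t_FB : S_FB := by
  intro C0 ε δ0 hC0 hε hδ0 hδ02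
  obtain ⟨δ, hδ⟩ : ∃ δ : ℝ, δ = δ0 / 6 := ⟨_, rfl⟩
  have hδp : 0 < δ := by rw [hδ]; positivity
  have hδ1 : δ ≤ 1 / 12 := by rw [hδ]; linarith
  have hlogδ : 0 ≤ Real.log (1 / δ) := Real.log_nonneg (by rw [le_div_iff₀ hδp]; linarith)
  obtain ⟨lam, hlam⟩ : ∃ lam : ℝ, lam = Real.log (2 / (5 / 12)) := ⟨_, rfl⟩
  have hlam0 : 0 < lam := by rw [hlam]; exact Real.log_pos (by norm_num)
  obtain ⟨D, hD⟩ : ∃ D : ℝ, D = 8 / δ ^ 2 * (C0 + Real.log (1 / δ) + 1) := ⟨_, rfl⟩
  have hD0 : 0 < D := by rw [hD]; positivity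
  obtain ⟨K, hK⟩ := exists_pow_lt_of_lt_one (show 0 < ε / 4 / D by positivity)
    (show 1 - δ / 2 < 1 by linarith)
  have hq0 : 0 ≤ 1 - δ / 2 := by linarith
  rw [lt_div_iff₀ hD0] at hK
  obtain ⟨G, hG⟩ : ∃ G : ℝ, G = K * (4 / (5 / 12) : ℝ) ^ K := ⟨_, rfl⟩
  have hG0 : 0 ≤ G := by rw [hG]; positivity
  obtain ⟨η, hη⟩ : ∃ η : ℝ, η = min 1 (ε / 4 / (lam * (1 + 2 * G))) := ⟨_, rfl⟩
  have hηp : 0 < η := by rw [hη]; exact lt_min one_pos (by positivity)
  have hη1 : η ≤ 1 := by rw [hη]; exact min_le_left _ _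
  have hη2 : η * (lam * (1 + 2 * G)) ≤ ε / 4 := by
    have h1 : η ≤ ε / 4 / (lam * (1 + 2 * G)) := by rw [hη]; exact min_le_right _ _
    rwa [le_div_iff₀ (by positivity)] at h1
  refine ⟨η, max 1 ((2 * C0 + 2 * (2 * C0 + 1) * G) * 4 / ε), hηp, le_max_left _ _, ?_⟩
  intro g c ρ L h2ρ hρ3 hL hg hgM hgl hZ w hw
  have hL1 : 1 ≤ L := (le_max_left _ _).trans hL
  have hLG : 2 * C0 + 2 * (2 * C0 + 1) * G ≤ ε / 4 * L := by
    have h1 := (le_max_right _ _).trans hL
    rw [div_le_iff₀ hε] at h1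
    linarith
  have hρ0 : 0 < ρ := by linarith
  have hρc : (ρ : ℂ) ≠ 0 := by exact_mod_cast hρ0.ne'
  have hgc0 : g c ≠ 0 := (hgl c (mem_closedBall_self (by norm_num))).1
  have hgcp : 0 < ‖g c‖ := norm_pos_iff.2 hgc0
  obtain ⟨f, hf⟩ : ∃ f : ℂ → ℂ, f = fun w => g (c + ρ * w) * (g c)⁻¹ := ⟨_, rfl⟩
  have hfn : ∀ z : ℂ, ‖f z‖ = ‖g (c + ρ * z)‖ / ‖g c‖ := by
    intro z
    rw [hf]
    simp only [norm_mul, norm_inv]
    rfl
  have hf0 : ∀ z : ℂ, f z = 0 ↔ g (c + ρ * z) = 0 := by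
    intro z
    rw [hf]
    simp only [mul_eq_zero, inv_eq_zero, hgc0, or_false]
  have hmap : ∀ (z : ℂ) (r : ℝ), ‖z‖ ≤ r → ‖(c + ρ * z) - c‖ ≤ ρ * r := by
    intro z r hz
    rw [add_sub_cancel_left, norm_mul, Complex.norm_real, Real.norm_eq_abs, abs_of_pos hρ0]
    gcongr
  have hin : ∀ z : ℂ, z ∈ closedBall (0 : ℂ) ((1 - δ0 / 2) + 3 * δ) → c + ρ * z ∈ closedBall c ρ := by
    intro z hz
    rw [mem_closedBall, dist_zero_right] at hz
    rw [mem_closedBall, dist_eq_norm]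
    have h1 := hmap z _ hz
    have h2 : (1 - δ0 / 2) + 3 * δ = 1 := by rw [hδ]; ring
    rw [h2, mul_one] at h1
    exact h1
  have key := DH31.backlund_abs (f := f) (c := 0) (ϱ := 1 - δ0 / 2) (δ := δ) (l := 5 / 12)
    (n := η * L) (M := Real.exp (C0 * L)) (A := Real.exp (2 * C0)) (a := 1)
    (by norm_num) (by norm_num) (by linarith)
    (by rw [hδ]; linarith) hδp
    (Real.one_le_exp (by positivity)) (Real.one_le_exp (by positivity)) le_rfl
    (by positivity)
    (fun w hw => by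
      have h1 := hg _ (hin w hw)
      rw [hf]
      have h2 : AnalyticAt ℂ (fun w : ℂ => c + ρ * w) w := by fun_prop
      exact (AnalyticAt.comp (g := g) (f := fun w : ℂ => c + ρ * w) h1 h2).mul analyticAt_const)
    (fun w hw => by
      rw [hfn, div_le_iff₀ hgcp]
      exact hgM _ (hin w hw))
    (fun w hw => by
      rw [hfn, div_le_iff₀ hgcp]
      rw [mem_closedBall, dist_zero_right] at hw
      refine near_centre (by linarith) (fun x hx => ?_) hgl ?_
      · exact (hg x (closedBall_subset_closedBall (by linarith)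
          (ball_subset_closedBall hx))).differentiableAt.differentiableWithinAt
      · rw [mem_ball, dist_eq_norm]
        have := hmap w _ hw
        nlinarith)
    (by rw [hfn]; simp [div_self hgcp.ne'])
    (by
      intro w hw hw0
      rw [hf0] at hw0
      rw [sub_zero]
      by_contra hcon
      push Not at hcon
      refine (hgl (c + ρ * w) ?_).1 hw0
      rw [mem_closedBall, dist_eq_norm]
      have := hmap w _ hcon.le
      nlinarith)
    (fun S hS => by
      classical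
      have h1 : ∀ z ∈ S, c + ρ * z ∈ closedBall c ρ := fun z hz =>
        hin z (closedBall_subset_closedBall (by linarith) (hS z hz).1)
      have h2 := hZ (S.image fun z => c + ρ * z) (by
        intro z hz
        rw [Finset.mem_image] at hz
        obtain ⟨y, hy, rfl⟩ := hz
        exact ⟨(hf0 y).1 (hS y hy).2, h1 y hy⟩)
      rw [Finset.sum_image (by
        intro x _ y _ hxy
        exact mul_left_cancel₀ hρc (add_left_cancel hxy))] at h2
      refine le_trans (le_of_eq ?_) h2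
      refine Finset.sum_congr rfl fun z hz => ?_
      rw [hf, mult_scale hρ0.ne' (inv_ne_zero hgc0) (hg _ (h1 z hz))]) K (z := (w - c) / ρ)
    (by
      rw [mem_closedBall, dist_zero_right, norm_div, Complex.norm_real, Real.norm_eq_abs,
        abs_of_pos hρ0, div_le_iff₀ hρ0]
      have : (1 - δ0 / 2) + δ = 1 - δ0 / 3 := by rw [hδ]; ring
      rw [this]
      nlinarith)
  have hwe : c + (ρ : ℂ) * ((w - c) / ρ) = w := by
    rw [mul_div_cancel₀ _ hρc]; ring
  rw [hfn, hwe, div_le_iff₀ hgcp] at key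
  refine key.trans ?_
  gcongr
  rw [← hlam, Real.log_exp, Real.log_exp, ← hG, ← Real.exp_add, Real.log_one, add_zero, add_zero]
  apply Real.exp_le_exp.2
  have e1 : η * (lam * (1 + 2 * G)) * L ≤ ε / 4 * L :=
    mul_le_mul_of_nonneg_right hη2 (by linarith)
  have e3 : 4 * (C0 * L + η * L * Real.log (1 / δ) + 1) / δ * (1 - δ / 2) ^ K * (2 / δ) ≤
      ε / 4 * L := by
    have h1 : C0 * L + η * L * Real.log (1 / δ) + 1 ≤ L * (C0 + Real.log (1 / δ) + 1) := by
      have a1 : η * L * Real.log (1 / δ) ≤ 1 * L * Real.log (1 / δ) := by gcongr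
      nlinarith
    have hp : 0 ≤ (1 - δ / 2) ^ K := by positivity
    calc _ = 8 / δ ^ 2 * (C0 * L + η * L * Real.log (1 / δ) + 1) * (1 - δ / 2) ^ K := by
          field_simp
          ring
      _ ≤ 8 / δ ^ 2 * (L * (C0 + Real.log (1 / δ) + 1)) * (1 - δ / 2) ^ K := by gcongr
      _ = ((1 - δ / 2) ^ K * D) * L := by rw [hD]; ring
      _ ≤ _ := mul_le_mul_of_nonneg_right hK.le (by linarith)
  nlinarith

end Pool.Agent.Q149.BD
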