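import Pool.Agent.Q149.BD.U4

set_option autoImplicit false

/-!
# Project BD, job U: the upper bound under RH
-/

namespace Pool.Agent.Q149.BD

open Complex MeasureTheory Filter Topology Set Pool.Agent.Q286.BD

theorem norm_cl_sq (g : ℝ) : ‖cl g‖ ^ 2 = 1 / 4 + g ^ 2 := by
  rw [← Complex.normSq_eq_norm_sq, Complex.normSq_apply]
  simp [cl]
  ring

theorem summable_main (h9 : S_sum2) :
    Summable (fun g : GG => (mz (cl g) : ℝ) ^ 2 / (1 / 4 + (g : ℝ) ^ 2)) := by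
  unfold S_sum2 at h9
  let i : GG → {s : ℂ // riemannZeta s = 0 ∧ 0 < s.re ∧ s.re < 1} :=
    fun g => ⟨cl g, g.2, by simp [cl], by simp [cl]; norm_num⟩
  have hi : Function.Injective i := by
    intro g g' h
    have h1 : cl g = cl g' := congrArg Subtype.val h
    have h2 := congrArg Complex.im h1
    simp [cl] at h2
    exact Subtype.ext h2
  have h := h9.comp_injective hi
  refine h.congr fun g => ?_
  simp only [Function.comp_apply, i]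
  rw [norm_cl_sq]

/-- job U of project BD -/
theorem up (h1 : S_pt) (h2 : S_dec) (h3 : S_lim) (h4 : S_asm) (h5 : S_cost) (h6 : S_loc) (h7 : S_mel)
    (h8 : S_cnt) (h9 : S_sum2) (h10 : S_upz) : S_up := by
  classical
  intro hRH η hη
  obtain ⟨K0, hK0⟩ := h8
  have hK : ∀ T : ℝ, (GG ∩ Icc T (T + 1)).Finite ∧ ((GG ∩ Icc T (T + 1)).ncard : ℝ) ≤ K0 * Real.log (|T| + 2) := hK0
  obtain ⟨β1, hβ1, hβ1', hdec⟩ := h2 hRH
  obtain ⟨Cz, hCz, hz⟩ := h10 hRH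
  obtain ⟨C1, hC1, hz1⟩ := zeta_growth hCz hz
  set β : ℝ := (β1 + 1) / 2 with hβdef
  have hβ0 : 0 < β := by rw [hβdef]; linarith
  have hβ1l : β1 < β := by rw [hβdef]; linarith
  have hβlt : β < 1 := by rw [hβdef]; linarith
  have hBd : ∀ φ : ℝ → ℝ, Wt β φ → ∃ C L0 : ℝ, 0 < C ∧ 1 ≤ L0 ∧ Bd GG (W φ) C L0 := by
    intro φ hφ
    obtain ⟨C, L0, hC, hL0, hd⟩ := hdec β hβ1l hβlt φ hφ
    obtain ⟨C', hC', hB⟩ := Bd_W_of (G := GG) (fun g => Iff.rfl) hφ hC1 hz1 hC hL0 hd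
    exact ⟨C', L0, hC', hL0, hB⟩
  obtain ⟨φ, hφ, -, -⟩ := h5 β hβ0 hβlt 1 le_rfl 1 one_pos
  obtain ⟨Cφ, Lφ, hCφ, hLφ, hBφ⟩ := hBd φ hφ
  obtain ⟨hint, hsum, -⟩ := asm_of_Bd h4 K0 hK hCφ hLφ (continuous_W φ) hBφ (u := fun g x => Fm (mz (cl g)) φ x)
    (fun g hg x => W_lim h3 hRH hβ0 hφ hg x)
  set f : GG → ℝ := fun g => (∫ x : ℝ, ‖Fm (mz (cl g)) φ x‖ ^ 2) / (1 / 4 + (g : ℝ) ^ 2) with hf
  -- choose the finite set
  set η1 : ℝ := η / 8 with hη1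
  have hη1p : 0 < η1 := by positivity
  obtain ⟨S, hS⟩ : ∃ S : Finset GG, ∑' g, f g ≤ ∑ g ∈ S, f g + η1 := by
    have h := hsum.hasSum
    have h' := h.eventually (lt_mem_nhds (sub_lt_self _ hη1p))
    obtain ⟨S, hS⟩ := h'.exists
    exact ⟨S, by linarith⟩
  set B : ℝ := ∑ g ∈ S, 1 / (1 / 4 + (g : ℝ) ^ 2) with hB
  have hBn : 0 ≤ B := Finset.sum_nonneg fun g _ => by positivity
  set η3 : ℝ := η / (4 * (B + 1)) with hη3
  have hη3p : 0 < η3 := by positivity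
  -- the weights
  have hw : ∀ g : GG, ∃ ψ : ℝ → ℝ, Wt β ψ ∧ 1 / (2 * Real.pi) * ∫ x : ℝ, ‖Fm (mz (cl g)) ψ x‖ ^ 2 ≤
      (mz (cl g) : ℝ) ^ 2 + η3 := by
    intro g
    rcases Nat.eq_zero_or_pos (mz (cl g)) with h0 | h0
    · refine ⟨φ, hφ, ?_⟩
      rw [h0]
      have : ∀ x, Fm 0 φ x = 0 := fun x => by simp [Fm]
      simp only [this]
      simp
      exact hη3p.le
    · obtain ⟨ψ, a1, _, a3⟩ := h5 β hβ0 hβlt (mz (cl g)) h0 η3 hη3p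
      exact ⟨ψ, a1, a3⟩
  choose ψ hψ hψc using hw
  have hψint : ∀ g : GG, Integrable (fun x : ℝ => ‖Fm (mz (cl g)) (ψ g) x‖ ^ 2) := by
    intro g
    obtain ⟨C', L', hC', hL', hB'⟩ := hBd (ψ g) (hψ g)
    exact (asm_of_Bd h4 K0 hK hC' hL' (continuous_W (ψ g)) hB' (u := fun g' x => Fm (mz (cl g')) (ψ g) x)
      (fun g' hg' x => W_lim h3 hRH hβ0 (hψ g) hg' x)).1 g g.2
  -- the total
  set M : ℝ := ∑' g : {g : ℝ | riemannZeta (cl g) = 0}, (mz (cl g) : ℝ) ^ 2 / (1 / 4 + (g : ℝ) ^ 2) with hM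
  set T : ℝ → ℝ := fun e => ∑ g ∈ S, (1 / (2 * Real.pi) *
    ∫ x : ℝ, ‖Fm (mz (cl g)) φ x + qq e x * (Fm (mz (cl g)) (ψ g) x - Fm (mz (cl g)) φ x)‖ ^ 2) / (1 / 4 + (g : ℝ) ^ 2) with hT
  set T0 : ℝ := ∑ g ∈ S, (1 / (2 * Real.pi) * ∫ x : ℝ, ‖Fm (mz (cl g)) (ψ g) x‖ ^ 2) / (1 / 4 + (g : ℝ) ^ 2) with hT0
  have hTlim : Tendsto T (𝓝[>] 0) (𝓝 T0) := by
    refine tendsto_finsetSum _ fun g _ => ?_
    exact ((tendsto_cost hφ (hψ g) (mz (cl g)) (hint g g.2) (hψint g)).const_mul _).div_const _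
  have hT0M : T0 ≤ M + η / 4 := by
    have s1 : T0 ≤ ∑ g ∈ S, ((mz (cl g) : ℝ) ^ 2 + η3) / (1 / 4 + (g : ℝ) ^ 2) := by
      refine Finset.sum_le_sum fun g _ => ?_
      gcongr
      exact hψc g
    have s2 : ∑ g ∈ S, ((mz (cl g) : ℝ) ^ 2 + η3) / (1 / 4 + (g : ℝ) ^ 2) =
        ∑ g ∈ S, (mz (cl g) : ℝ) ^ 2 / (1 / 4 + (g : ℝ) ^ 2) + η3 * B := by
      rw [hB, Finset.mul_sum, ← Finset.sum_add_distrib]
      refine Finset.sum_congr rfl fun g _ => ?_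
      ring
    have s3 : ∑ g ∈ S, (mz (cl g) : ℝ) ^ 2 / (1 / 4 + (g : ℝ) ^ 2) ≤ M := by
      have hM' : M = ∑' g : GG, (mz (cl g) : ℝ) ^ 2 / (1 / 4 + (g : ℝ) ^ 2) := hM
      rw [hM']
      exact (summable_main h9).sum_le_tsum S fun g _ => by positivity
    have s4 : η3 * B ≤ η / 4 := by
      rw [hη3, div_mul_eq_mul_div, div_le_div_iff₀ (by positivity) (by norm_num)]
      nlinarith
    linarith
  have hlim2 : Tendsto (fun e : ℝ => (1 + e) * (T e + 2 * η1)) (𝓝[>] 0) (𝓝 ((1 + 0) * (T0 + 2 * η1))) := by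
    refine Tendsto.mul ?_ (hTlim.add_const _)
    exact (tendsto_const_nhds.add (tendsto_id.mono_left nhdsWithin_le_nhds))
  have hlt : (1 + 0) * (T0 + 2 * η1) < M + η := by
    rw [hη1]
    linarith
  obtain ⟨e, he, hepos⟩ : ∃ e : ℝ, (1 + e) * (T e + 2 * η1) < M + η ∧ 0 < e :=
    ((hlim2.eventually (gt_mem_nhds hlt)).and (eventually_mem_nhdsWithin)).exists
  -- assembly for the combination
  obtain ⟨CU, LU, hCU, hLU, hBU⟩ := Bd_UU h6 hepos (φ := φ) (S := S) (ψ := ψ) ⟨Cφ, Lφ, hCφ, hLφ, hBφ⟩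
    (fun g _ => hBd (ψ g) (hψ g))
  obtain ⟨-, hsumU, hev⟩ := asm_of_Bd h4 K0 hK hCU hLU (UU_continuous S φ ψ e) hBU (u := uu S φ ψ e)
    (fun g hg x => UU_lim h3 h6 hRH hβ0 hφ S (fun g _ => hψ g) hepos hg x)
  set F : GG → ℝ := fun g => (∫ x : ℝ, ‖uu S φ ψ e g x‖ ^ 2) / (1 / 4 + (g : ℝ) ^ 2) with hF
  have hFS : ∀ g ∉ S, F g = f g := by
    intro g hg
    simp only [hF, hf]
    congr 2
    funext x
    rw [uu_of_not_mem φ ψ e x hg]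
  have hFsum : ∑' g, F g ≤ ∑ g ∈ S, F g + η1 := by
    have t1 : ∑' g, F g - ∑' g, f g = ∑ g ∈ S, (F g - f g) := by
      rw [← Summable.tsum_sub hsumU hsum]
      refine tsum_eq_sum fun g hg => ?_
      rw [hFS g hg, sub_self]
    rw [Finset.sum_sub_distrib] at t1
    linarith
  have hFT : 1 / (2 * Real.pi) * ∑ g ∈ S, F g = T e := by
    simp only [hT, hF]
    rw [Finset.mul_sum]
    refine Finset.sum_congr rfl fun g hg => ?_
    rw [mul_div_assoc]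
    congr 3
    funext x
    rw [uu_of_mem φ ψ e x hg]
  -- the bound in `L`
  have hpi : 1 / (2 * Real.pi) ≤ 1 := by
    rw [div_le_one (by positivity)]
    linarith [Real.pi_gt_three]
  have hevL : ∀ᶠ L : ℝ in atTop, 0 ≤ L ∧ (1 + e) * L * (1 / (2 * Real.pi) *
      ∫ t : ℝ, ‖UU S φ ψ e L t‖ ^ 2 / (1 / 4 + t ^ 2)) ≤ M + η := by
    filter_upwards [hev η1 hη1p, eventually_ge_atTop 0] with L hL hL0
    refine ⟨hL0, ?_⟩
    have u1 : L * ∫ t : ℝ, ‖UU S φ ψ e L t‖ ^ 2 / (1 / 4 + t ^ 2) ≤ ∑ g ∈ S, F g + η1 + η1 :=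
      hL.trans (by linarith)
    have u2 : 1 / (2 * Real.pi) * (L * ∫ t : ℝ, ‖UU S φ ψ e L t‖ ^ 2 / (1 / 4 + t ^ 2)) ≤ T e + 2 * η1 := by
      have := mul_le_mul_of_nonneg_left u1 (by positivity : (0 : ℝ) ≤ 1 / (2 * Real.pi))
      refine this.trans ?_
      rw [add_assoc, mul_add, hFT]
      nlinarith
    calc (1 + e) * L * (1 / (2 * Real.pi) * ∫ t : ℝ, ‖UU S φ ψ e L t‖ ^ 2 / (1 / 4 + t ^ 2))
        = (1 + e) * (1 / (2 * Real.pi) * (L * ∫ t : ℝ, ‖UU S φ ψ e L t‖ ^ 2 / (1 / 4 + t ^ 2))) := by ring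
      _ ≤ (1 + e) * (T e + 2 * η1) := by
          have : 0 ≤ 1 + e := by linarith
          gcongr
      _ ≤ M + η := he.le
  -- passage to `N`
  have hLN : Tendsto (fun N : ℕ => Real.log N / (1 + e)) atTop atTop :=
    (Real.tendsto_log_atTop.comp tendsto_natCast_atTop_atTop).atTop_div_const (by linarith)
  filter_upwards [hLN.eventually hevL, eventually_ge_atTop 1] with N hN hN1
  obtain ⟨hN0, hN2⟩ := hN
  have he1 : (1 + e) ≠ 0 := by linarith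
  have hexp : Real.exp (e * (Real.log N / (1 + e)) + Real.log N / (1 + e)) ≤ N := by
    have : e * (Real.log N / (1 + e)) + Real.log N / (1 + e) = Real.log N := by
      field_simp
      ring
    rw [this, Real.exp_log (by exact_mod_cast (by omega : 0 < N))]
  obtain ⟨a, ha⟩ := JJ_le h7 hN1 (DP_AA S φ ψ hepos.le hN0 hexp)
  refine ⟨a, ?_⟩
  have hlog : 0 ≤ Real.log N := Real.log_natCast_nonneg N
  calc JJ N a * Real.log N ≤ (1 / (2 * Real.pi) *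
        ∫ t : ℝ, ‖riemannZeta (cl t) * AA S φ ψ e (Real.log N / (1 + e)) t - 1‖ ^ 2 / (1 / 4 + t ^ 2)) * Real.log N := by
        gcongr
    _ = (1 + e) * (Real.log N / (1 + e)) * (1 / (2 * Real.pi) *
        ∫ t : ℝ, ‖UU S φ ψ e (Real.log N / (1 + e)) t‖ ^ 2 / (1 / 4 + t ^ 2)) := by
        simp only [UU_eq]
        rw [mul_div_cancel₀ _ he1]
        ring
    _ ≤ M + η := hN2

end Pool.Agent.Q149.BD
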