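import Pool.Agent.Q286.BD.Spec

set_option autoImplicit false

/-!
# Project BD, job U: Dirichlet polynomials and elementary bounds
-/

namespace Pool.Agent.Q149.BD

open Complex MeasureTheory Filter Topology Set Pool.Agent.Q286.BD

/-- functions of `t` given by a Dirichlet polynomial of length `X` at `1/2 + it` -/
def DP (X : ℕ) (f : ℝ → ℂ) : Prop :=
  ∃ b : ℕ → ℂ, ∀ t : ℝ, f t = ∑ k ∈ Finset.Icc 1 X, b k * (k : ℂ) ^ (-cl t)

theorem DP.mono {X Y : ℕ} (h : X ≤ Y) {f : ℝ → ℂ} (hf : DP X f) : DP Y f := by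
  obtain ⟨b, hb⟩ := hf
  refine ⟨fun k => if k ≤ X then b k else 0, fun t => ?_⟩
  rw [hb t]
  have hsub : Finset.Icc 1 X ⊆ Finset.Icc 1 Y := Finset.Icc_subset_Icc le_rfl h
  rw [← Finset.sum_subset hsub]
  · refine Finset.sum_congr rfl fun k hk => ?_
    beta_reduce
    rw [if_pos (Finset.mem_Icc.1 hk).2]
  · intro k hk hk'
    have : ¬ k ≤ X := fun h' => hk' (Finset.mem_Icc.2 ⟨(Finset.mem_Icc.1 hk).1, h'⟩)
    beta_reduce
    rw [if_neg this, zero_mul]

theorem DP.add {X : ℕ} {f g : ℝ → ℂ} (hf : DP X f) (hg : DP X g) : DP X (fun t => f t + g t) := by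
  obtain ⟨b, hb⟩ := hf
  obtain ⟨c, hc⟩ := hg
  refine ⟨fun k => b k + c k, fun t => ?_⟩
  simp only [hb t, hc t, add_mul, Finset.sum_add_distrib]

theorem DP.sub {X : ℕ} {f g : ℝ → ℂ} (hf : DP X f) (hg : DP X g) : DP X (fun t => f t - g t) := by
  obtain ⟨b, hb⟩ := hf
  obtain ⟨c, hc⟩ := hg
  refine ⟨fun k => b k - c k, fun t => ?_⟩
  simp only [hb t, hc t, sub_mul, Finset.sum_sub_distrib]

theorem DP.zero (X : ℕ) : DP X (fun _ => 0) := ⟨fun _ => 0, fun t => by simp⟩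

theorem DP.sum {ι : Type*} {X : ℕ} (S : Finset ι) (f : ι → ℝ → ℂ) (h : ∀ i ∈ S, DP X (f i)) :
    DP X (fun t => ∑ i ∈ S, f i t) := by
  classical
  induction S using Finset.induction_on with
  | empty => simpa using DP.zero X
  | insert a s ha ih =>
      have h1 := h a (Finset.mem_insert_self a s)
      have h2 := ih fun i hi => h i (Finset.mem_insert_of_mem hi)
      have h3 := h1.add h2
      refine (by simpa [Finset.sum_insert ha] using h3)

theorem DP.mul {X Y Z : ℕ} (h : X * Y ≤ Z) {f g : ℝ → ℂ} (hf : DP X f) (hg : DP Y g) :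
    DP Z (fun t => f t * g t) := by
  classical
  obtain ⟨b, hb⟩ := hf
  obtain ⟨c, hc⟩ := hg
  refine ⟨fun k => ∑ p ∈ (Finset.Icc 1 X ×ˢ Finset.Icc 1 Y) with p.1 * p.2 = k, b p.1 * c p.2, fun t => ?_⟩
  beta_reduce
  rw [hb t, hc t, Finset.sum_mul_sum, ← Finset.sum_product']
  rw [← Finset.sum_fiberwise_of_maps_to (s := Finset.Icc 1 X ×ˢ Finset.Icc 1 Y) (t := Finset.Icc 1 Z)
    (g := fun p : ℕ × ℕ => p.1 * p.2)]
  · refine Finset.sum_congr rfl fun k _ => ?_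
    rw [Finset.sum_mul]
    refine Finset.sum_congr rfl fun p hp => ?_
    have hp2 := (Finset.mem_filter.1 hp).2
    rw [← hp2, Nat.cast_mul, Complex.natCast_mul_natCast_cpow]
    ring
  · intro p hp
    have hp' := Finset.mem_product.1 hp
    have h1 := Finset.mem_Icc.1 hp'.1
    have h2 := Finset.mem_Icc.1 hp'.2
    refine Finset.mem_Icc.2 ⟨Nat.one_le_iff_ne_zero.2 (Nat.mul_ne_zero (by omega) (by omega)), ?_⟩
    exact (Nat.mul_le_mul h1.2 h2.2).trans h

theorem DP_A (φ : ℝ → ℝ) (L : ℝ) : DP ⌊Real.exp L⌋₊ (fun t => A φ L (cl t)) :=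
  ⟨fun n => (ArithmeticFunction.moebius n : ℂ) * ((V φ (Real.log n / L) : ℝ) : ℂ), fun _ => rfl⟩

theorem DP_Pl (g L2 : ℝ) : DP ⌊Real.exp L2⌋₊ (fun t => Pl g L2 t) := by
  refine ⟨fun n => 1 / (L2 : ℂ) * (n : ℂ) ^ (-(1 / 2 - g * I) : ℂ), fun t => ?_⟩
  simp only [Pl]
  rw [Finset.mul_sum]
  refine Finset.sum_congr rfl fun n hn => ?_
  have hn1 : (n : ℂ) ≠ 0 := by
    have := (Finset.mem_Icc.1 hn).1
    exact_mod_cast (by omega : n ≠ 0)
  rw [mul_assoc, ← Complex.cpow_add _ _ hn1]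
  congr 2
  simp only [cl]
  ring

theorem floor_mul_le {a b : ℝ} {N : ℕ} (h : Real.exp (a + b) ≤ N) :
    ⌊Real.exp a⌋₊ * ⌊Real.exp b⌋₊ ≤ N := by
  have h1 : (⌊Real.exp a⌋₊ : ℝ) ≤ Real.exp a := Nat.floor_le (Real.exp_pos a).le
  have h2 : (⌊Real.exp b⌋₊ : ℝ) ≤ Real.exp b := Nat.floor_le (Real.exp_pos b).le
  have h3 : ((⌊Real.exp a⌋₊ * ⌊Real.exp b⌋₊ : ℕ) : ℝ) ≤ N := by
    push_cast
    calc (⌊Real.exp a⌋₊ : ℝ) * ⌊Real.exp b⌋₊ ≤ Real.exp a * Real.exp b :=
          mul_le_mul h1 h2 (Nat.cast_nonneg _) (Real.exp_pos a).le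
      _ = Real.exp (a + b) := (Real.exp_add a b).symm
      _ ≤ N := h
  exact_mod_cast h3

/-! ## continuity -/

theorem cl_ne_one (t : ℝ) : cl t ≠ 1 := by
  intro h
  have := congrArg Complex.re h
  simp [cl] at this

theorem continuous_cl : Continuous cl := by
  unfold cl
  fun_prop

theorem continuous_zeta : Continuous fun t : ℝ => riemannZeta (cl t) := by
  rw [continuous_iff_continuousAt]
  intro t
  exact (differentiableAt_riemannZeta (cl_ne_one t)).continuousAt.comp continuous_cl.continuousAt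

theorem DP.continuous {X : ℕ} {f : ℝ → ℂ} (hf : DP X f) : Continuous f := by
  obtain ⟨b, hb⟩ := hf
  have : f = fun t => ∑ k ∈ Finset.Icc 1 X, b k * (k : ℂ) ^ (-cl t) := funext hb
  rw [this]
  refine continuous_finsetSum _ fun k hk => ?_
  have hk1 : (k : ℂ) ≠ 0 := by
    have := (Finset.mem_Icc.1 hk).1
    exact_mod_cast (by omega : k ≠ 0)
  exact continuous_const.mul ((continuous_cl.neg).const_cpow (Or.inl hk1))

/-- `ζ A - 1` on the line -/
noncomputable def W (φ : ℝ → ℝ) (L t : ℝ) : ℂ := riemannZeta (cl t) * A φ L (cl t) - 1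

theorem continuous_W (φ : ℝ → ℝ) (L : ℝ) : Continuous (W φ L) :=
  (continuous_zeta.mul (DP_A φ L).continuous).sub continuous_const

/-! ## weights -/

theorem Wt.hasCompactSupport {β : ℝ} {φ : ℝ → ℝ} (h : Wt β φ) : HasCompactSupport φ := by
  obtain ⟨ε, _, h2⟩ := h.supp
  refine HasCompactSupport.of_support_subset_isCompact (isCompact_Icc (a := ε) (b := 1)) fun u hu => ?_
  exact h2 u hu

theorem Wt.integrable {β : ℝ} {φ : ℝ → ℝ} (h : Wt β φ) : Integrable φ :=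
  h.cont.integrable_of_hasCompactSupport (Wt.hasCompactSupport h)

theorem V_abs_le {β : ℝ} {φ : ℝ → ℝ} (h : Wt β φ) (u : ℝ) : |V φ u| ≤ ∫ v, |φ v| := by
  unfold V
  calc |∫ v in Ioi u, φ v| ≤ ∫ v in Ioi u, |φ v| := abs_integral_le_integral_abs
    _ ≤ ∫ v, |φ v| := setIntegral_le_integral (Wt.integrable h).abs (Eventually.of_forall fun v => abs_nonneg _)

theorem norm_A_le {β : ℝ} {φ : ℝ → ℝ} (h : Wt β φ) (L t : ℝ) :
    ‖A φ L (cl t)‖ ≤ (∫ v, |φ v|) * Real.exp L := by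
  have hM : 0 ≤ ∫ v, |φ v| := integral_nonneg fun v => abs_nonneg _
  unfold A
  calc ‖∑ n ∈ Finset.Icc 1 ⌊Real.exp L⌋₊,
        (ArithmeticFunction.moebius n : ℂ) * ((V φ (Real.log n / L) : ℝ) : ℂ) * (n : ℂ) ^ (-cl t)‖
      ≤ ∑ n ∈ Finset.Icc 1 ⌊Real.exp L⌋₊, ∫ v, |φ v| := by
        refine norm_sum_le_of_le _ fun n hn => ?_
        have hn1 : 1 ≤ n := (Finset.mem_Icc.1 hn).1
        have e1 : ‖(ArithmeticFunction.moebius n : ℂ)‖ ≤ 1 := by
          have h1 : |ArithmeticFunction.moebius n| ≤ 1 := ArithmeticFunction.abs_moebius_le_one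
          have h2 : ‖(ArithmeticFunction.moebius n : ℂ)‖ = |(ArithmeticFunction.moebius n : ℝ)| := by
            rw [Complex.norm_intCast]
          rw [h2]
          exact_mod_cast h1
        have e2 : ‖((V φ (Real.log n / L) : ℝ) : ℂ)‖ ≤ ∫ v, |φ v| := by
          rw [Complex.norm_real, Real.norm_eq_abs]
          exact V_abs_le h _
        have e3 : ‖(n : ℂ) ^ (-cl t)‖ ≤ 1 := by
          rw [Complex.norm_natCast_cpow_of_pos (by omega)]
          have : (-cl t).re = -(1 / 2) := by simp [cl]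
          rw [this]
          exact Real.rpow_le_one_of_one_le_of_nonpos (by exact_mod_cast hn1) (by norm_num)
        rw [norm_mul, norm_mul]
        calc ‖(ArithmeticFunction.moebius n : ℂ)‖ * ‖((V φ (Real.log n / L) : ℝ) : ℂ)‖ * ‖(n : ℂ) ^ (-cl t)‖
            ≤ 1 * (∫ v, |φ v|) * 1 := by gcongr
          _ = ∫ v, |φ v| := by ring
    _ = (⌊Real.exp L⌋₊ : ℝ) * ∫ v, |φ v| := by simp
    _ ≤ Real.exp L * ∫ v, |φ v| := by
        gcongr
        exact Nat.floor_le (Real.exp_pos L).le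
    _ = (∫ v, |φ v|) * Real.exp L := mul_comm _ _

end Pool.Agent.Q149.BD
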