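import Pool.Agent.Q149.BD.U1

set_option autoImplicit false

/-!
# Project BD, job U: growth conditions of job P6 for combinations
-/

namespace Pool.Agent.Q149.BD

open Complex MeasureTheory Filter Topology Set Pool.Agent.Q286.BD

/-- the two growth conditions in `S_asm` (the second one without the square) -/
def Bd (G : Set ℝ) (U : ℝ → ℝ → ℂ) (C L0 : ℝ) : Prop :=
  (∀ L : ℝ, L0 ≤ L → ∀ t d : ℝ, |t| ≤ Real.exp (10 * L) → 0 < d → d ≤ 1 → (∀ g ∈ G, d ≤ |g - t|) →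
    ‖U L t‖ ≤ C * (1 + |t|) ^ (3 / 8 : ℝ) / (1 + L * d)) ∧
  (∀ L : ℝ, L0 ≤ L → ∀ t : ℝ, Real.exp (10 * L) ≤ |t| →
    ‖U L t‖ ≤ C * (Real.exp (L / 2) * (1 + |t|) ^ (1 / 4 : ℝ)))

theorem Bd.mono {G : Set ℝ} {U : ℝ → ℝ → ℂ} {C L0 C' L0' : ℝ} (h0 : 0 ≤ L0) (h : Bd G U C L0) (hC : C ≤ C') (hL : L0 ≤ L0') :
    Bd G U C' L0' := by
  refine ⟨fun L hL' t d ht hd hd1 hg => ?_, fun L hL' t ht => ?_⟩
  · refine (h.1 L (hL.trans hL') t d ht hd hd1 hg).trans ?_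
    have : 0 < 1 + L * d := by
      have : 0 ≤ L := h0.trans (hL.trans hL')
      positivity
    gcongr
  · refine (h.2 L (hL.trans hL') t ht).trans ?_
    gcongr

theorem Bd.add {G : Set ℝ} {U U' : ℝ → ℝ → ℂ} {C C' L0 : ℝ} (h : Bd G U C L0) (h' : Bd G U' C' L0) :
    Bd G (fun L t => U L t + U' L t) (C + C') L0 := by
  refine ⟨fun L hL' t d ht hd hd1 hg => ?_, fun L hL' t ht => ?_⟩
  · refine (norm_add_le _ _).trans ((add_le_add (h.1 L hL' t d ht hd hd1 hg) (h'.1 L hL' t d ht hd hd1 hg)).trans ?_)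
    apply le_of_eq
    ring
  · refine (norm_add_le _ _).trans ((add_le_add (h.2 L hL' t ht) (h'.2 L hL' t ht)).trans ?_)
    apply le_of_eq
    ring

theorem Bd.sub {G : Set ℝ} {U U' : ℝ → ℝ → ℂ} {C C' L0 : ℝ} (h : Bd G U C L0) (h' : Bd G U' C' L0) :
    Bd G (fun L t => U L t - U' L t) (C + C') L0 := by
  refine ⟨fun L hL' t d ht hd hd1 hg => ?_, fun L hL' t ht => ?_⟩
  · refine (norm_sub_le _ _).trans ((add_le_add (h.1 L hL' t d ht hd hd1 hg) (h'.1 L hL' t d ht hd hd1 hg)).trans ?_)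
    apply le_of_eq
    ring
  · refine (norm_sub_le _ _).trans ((add_le_add (h.2 L hL' t ht) (h'.2 L hL' t ht)).trans ?_)
    apply le_of_eq
    ring

theorem Bd.bmul {G : Set ℝ} {U : ℝ → ℝ → ℂ} {C L0 : ℝ} (h : Bd G U C L0) {P : ℝ → ℝ → ℂ}
    (hP : ∀ L : ℝ, L0 ≤ L → ∀ t : ℝ, ‖P L t‖ ≤ 2) :
    Bd G (fun L t => P L t * U L t) (2 * C) L0 := by
  refine ⟨fun L hL' t d ht hd hd1 hg => ?_, fun L hL' t ht => ?_⟩
  · rw [norm_mul]
    refine (mul_le_mul (hP L hL' t) (h.1 L hL' t d ht hd hd1 hg) (norm_nonneg _) (by norm_num)).trans ?_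
    apply le_of_eq
    ring
  · rw [norm_mul]
    refine (mul_le_mul (hP L hL' t) (h.2 L hL' t ht) (norm_nonneg _) (by norm_num)).trans ?_
    apply le_of_eq
    ring

theorem Bd.sum {G : Set ℝ} {ι : Type*} {U : ι → ℝ → ℝ → ℂ} {C : ι → ℝ} {L0 : ℝ} (S : Finset ι)
    (h : ∀ i ∈ S, Bd G (U i) (C i) L0) : Bd G (fun L t => ∑ i ∈ S, U i L t) (∑ i ∈ S, C i) L0 := by
  refine ⟨fun L hL' t d ht hd hd1 hg => ?_, fun L hL' t ht => ?_⟩
  · refine (norm_sum_le _ _).trans ((Finset.sum_le_sum fun i hi => (h i hi).1 L hL' t d ht hd hd1 hg).trans ?_)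
    rw [Finset.sum_mul, Finset.sum_div]
  · refine (norm_sum_le _ _).trans ((Finset.sum_le_sum fun i hi => (h i hi).2 L hL' t ht).trans ?_)
    rw [Finset.sum_mul]

theorem Lam_ge (t : ℝ) : Real.exp 1 ≤ Lam t := by
  unfold Lam
  rw [Real.le_log_iff_exp_le (by positivity)]
  have h1 : Real.exp (Real.exp 1) ≤ 16 := by
    have h2 : Real.exp 1 < 2.7182818286 := Real.exp_one_lt_d9
    have h3 : Real.exp (Real.exp 1) ≤ Real.exp (2.72 : ℝ) := Real.exp_le_exp.2 (by linarith)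
    have h4 : Real.exp (2.72 : ℝ) = Real.exp 1 ^ 2 * Real.exp 0.72 := by
      rw [← Real.exp_nat_mul, ← Real.exp_add]; norm_num
    have h5 : Real.exp (0.72 : ℝ) ≤ 2.06 := by
      have := Real.exp_bound_div_one_sub_of_interval (x := 0.36) (by norm_num) (by norm_num)
      have h6 : Real.exp (0.18 : ℝ) ≤ 1.1975 := by
        have := Real.exp_bound' (x := 0.18) (by norm_num) (by norm_num) (n := 3) (by norm_num)
        refine this.trans ?_
        norm_num [Finset.sum_range_succ, Nat.factorial]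
      have h7 : Real.exp (0.72 : ℝ) = Real.exp 0.18 ^ 4 := by
        rw [← Real.exp_nat_mul]; norm_num
      rw [h7]
      calc Real.exp 0.18 ^ 4 ≤ (1.1975 : ℝ) ^ 4 := by gcongr
        _ ≤ 2.06 := by norm_num
    rw [h4] at h3
    calc Real.exp (Real.exp 1) ≤ Real.exp 1 ^ 2 * Real.exp 0.72 := h3
      _ ≤ (2.7182818286 : ℝ) ^ 2 * 2.06 := by gcongr
      _ ≤ 16 := by norm_num
  linarith [abs_nonneg t]

theorem log_Lam_ge (t : ℝ) : 1 ≤ Real.log (Lam t) := by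
  rw [Real.le_log_iff_exp_le ((Real.exp_pos 1).trans_le (Lam_ge t))]
  exact Lam_ge t

/-- subpolynomial growth from `S_upz` -/
theorem zeta_growth {C : ℝ} (hC : 0 < C) (h : ∀ t : ℝ, ‖riemannZeta (cl t)‖ ≤ Real.exp (C * ML t)) :
    ∃ C' : ℝ, 0 < C' ∧ ∀ t : ℝ, ‖riemannZeta (cl t)‖ ≤ C' * (1 + |t|) ^ (1 / 8 : ℝ) := by
  refine ⟨2 + Real.exp (C * Real.exp (8 * C)), by positivity, fun t => (h t).trans ?_⟩
  have hL : 0 < Lam t := (Real.exp_pos 1).trans_le (Lam_ge t)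
  have hll := log_Lam_ge t
  have hpow : (1 : ℝ) ≤ (1 + |t|) ^ (1 / 8 : ℝ) :=
    Real.one_le_rpow (by linarith [abs_nonneg t]) (by norm_num)
  rcases le_or_gt (8 * C) (Real.log (Lam t)) with h8 | h8
  · have h1 : C * ML t ≤ Lam t * (1 / 8) := by
      unfold ML
      rw [mul_div_assoc', div_le_iff₀ (by linarith)]
      nlinarith
    have h2 : Real.exp (C * ML t) ≤ (|t| + 16) ^ (1 / 8 : ℝ) := by
      rw [Real.rpow_def_of_pos (by positivity)]
      exact Real.exp_le_exp.2 h1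
    have h3 : (|t| + 16) ^ (1 / 8 : ℝ) ≤ 2 * (1 + |t|) ^ (1 / 8 : ℝ) := by
      have h4 : (16 : ℝ) ^ (1 / 8 : ℝ) ≤ 2 := by
        have : (16 : ℝ) ^ (1 / 8 : ℝ) ≤ (2 ^ (8 : ℝ)) ^ (1 / 8 : ℝ) := by
          apply Real.rpow_le_rpow (by norm_num) _ (by norm_num)
          norm_num
        refine this.trans ?_
        rw [← Real.rpow_mul (by norm_num)]
        norm_num
      calc (|t| + 16) ^ (1 / 8 : ℝ) ≤ (16 * (1 + |t|)) ^ (1 / 8 : ℝ) := by
            apply Real.rpow_le_rpow (by positivity) _ (by norm_num)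
            linarith [abs_nonneg t]
        _ = 16 ^ (1 / 8 : ℝ) * (1 + |t|) ^ (1 / 8 : ℝ) := Real.mul_rpow (by norm_num) (by positivity)
        _ ≤ 2 * (1 + |t|) ^ (1 / 8 : ℝ) := by gcongr
    calc Real.exp (C * ML t) ≤ 2 * (1 + |t|) ^ (1 / 8 : ℝ) := h2.trans h3
      _ ≤ (2 + Real.exp (C * Real.exp (8 * C))) * (1 + |t|) ^ (1 / 8 : ℝ) := by
          gcongr
          linarith [Real.exp_pos (C * Real.exp (8 * C))]
  · have h1 : Lam t ≤ Real.exp (8 * C) := by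
      rw [← Real.log_le_iff_le_exp hL]
      exact h8.le
    have h2 : ML t ≤ Lam t := by
      unfold ML
      rw [div_le_iff₀ (by linarith)]
      nlinarith
    have h3 : Real.exp (C * ML t) ≤ Real.exp (C * Real.exp (8 * C)) := by
      apply Real.exp_le_exp.2
      gcongr
      exact h2.trans h1
    calc Real.exp (C * ML t) ≤ Real.exp (C * Real.exp (8 * C)) := h3
      _ ≤ (2 + Real.exp (C * Real.exp (8 * C))) * 1 := by linarith
      _ ≤ (2 + Real.exp (C * Real.exp (8 * C))) * (1 + |t|) ^ (1 / 8 : ℝ) := by gcongr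

theorem Bd_W_of {G : Set ℝ} (hG : ∀ g : ℝ, g ∈ G ↔ riemannZeta (cl g) = 0) {β : ℝ} {φ : ℝ → ℝ} (hφ : Wt β φ)
    {C1 : ℝ} (hC1 : 0 < C1) (hz : ∀ t : ℝ, ‖riemannZeta (cl t)‖ ≤ C1 * (1 + |t|) ^ (1 / 8 : ℝ))
    {C L0 : ℝ} (hC : 0 < C) (hL0 : 1 ≤ L0)
    (hd : ∀ L : ℝ, L0 ≤ L → ∀ t d : ℝ, |t| ≤ Real.exp (10 * L) →
      0 < d → d ≤ 1 → (∀ g : ℝ, riemannZeta (cl g) = 0 → d ≤ |g - t|) →
      ‖riemannZeta (cl t) * A φ L (cl t) - 1‖ ≤ C * (1 + |t|) ^ (3 / 8 : ℝ) / (1 + L * d)) :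
    ∃ C' : ℝ, 0 < C' ∧ Bd G (W φ) C' L0 := by
  set M := ∫ v, |φ v| with hM
  have hM0 : 0 ≤ M := integral_nonneg fun v => abs_nonneg _
  refine ⟨C + (C1 * M + 1), by positivity, fun L hL t d ht hd0 hd1 hg => ?_, fun L hL t ht => ?_⟩
  · refine (hd L hL t d ht hd0 hd1 fun g hg' => hg g ((hG g).2 hg')).trans ?_
    have : 0 < 1 + L * d := by
      have : 0 ≤ L := by linarith
      positivity
    gcongr
    nlinarith
  · have hL' : 1 ≤ L := hL0.trans hL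
    have h1 : ‖W φ L t‖ ≤ C1 * (1 + |t|) ^ (1 / 8 : ℝ) * (M * Real.exp L) + 1 := by
      unfold W
      refine (norm_sub_le _ _).trans ?_
      rw [norm_mul, norm_one]
      gcongr
      · exact hz t
      · exact norm_A_le hφ L t
    have ht1 : Real.exp (10 * L) ≤ 1 + |t| := by linarith
    have h0 : (0 : ℝ) < 1 + |t| := by positivity
    have h2 : Real.exp (L / 2) ≤ (1 + |t|) ^ (1 / 8 : ℝ) := by
      have h3 : Real.exp (L / 2) = Real.exp (10 * L) ^ (1 / 20 : ℝ) := by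
        rw [← Real.exp_mul]; congr 1; ring
      calc Real.exp (L / 2) = Real.exp (10 * L) ^ (1 / 20 : ℝ) := h3
        _ ≤ (1 + |t|) ^ (1 / 20 : ℝ) := Real.rpow_le_rpow (Real.exp_pos _).le ht1 (by norm_num)
        _ ≤ (1 + |t|) ^ (1 / 8 : ℝ) := Real.rpow_le_rpow_of_exponent_le (by linarith [abs_nonneg t]) (by norm_num)
    have h4 : (1 + |t|) ^ (1 / 4 : ℝ) = (1 + |t|) ^ (1 / 8 : ℝ) * (1 + |t|) ^ (1 / 8 : ℝ) := by
      rw [← Real.rpow_add h0]; norm_num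
    have h5 : Real.exp L = Real.exp (L / 2) * Real.exp (L / 2) := by
      rw [← Real.exp_add]; congr 1; ring
    have h6 : 1 ≤ Real.exp (L / 2) := Real.one_le_exp (by linarith)
    have h7 : 1 ≤ (1 + |t|) ^ (1 / 4 : ℝ) := Real.one_le_rpow (by linarith [abs_nonneg t]) (by norm_num)
    calc ‖W φ L t‖ ≤ C1 * (1 + |t|) ^ (1 / 8 : ℝ) * (M * Real.exp L) + 1 := h1
      _ = C1 * M * (Real.exp (L / 2) * ((1 + |t|) ^ (1 / 8 : ℝ) * Real.exp (L / 2))) + 1 := by rw [h5]; ring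
      _ ≤ C1 * M * (Real.exp (L / 2) * ((1 + |t|) ^ (1 / 8 : ℝ) * (1 + |t|) ^ (1 / 8 : ℝ))) +
          1 * (Real.exp (L / 2) * (1 + |t|) ^ (1 / 4 : ℝ)) := by
          gcongr
          rw [one_mul]
          exact one_le_mul_of_one_le_of_one_le h6 h7
      _ = (C1 * M + 1) * (Real.exp (L / 2) * (1 + |t|) ^ (1 / 4 : ℝ)) := by rw [h4]; ring
      _ ≤ (C + (C1 * M + 1)) * (Real.exp (L / 2) * (1 + |t|) ^ (1 / 4 : ℝ)) := by
          refine mul_le_mul_of_nonneg_right ?_ (by positivity)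
          linarith

end Pool.Agent.Q149.BD
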