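import Pool.Agent.Q149.BD.U3

set_option autoImplicit false

/-!
# Project BD, job U: the upper bound
-/

namespace Pool.Agent.Q149.BD

open Complex MeasureTheory Filter Topology Set Pool.Agent.Q286.BD

/-- the ordinates of the zeros on the line -/
def GG : Set ℝ := {g : ℝ | riemannZeta (cl g) = 0}

theorem asm_of_Bd (h4 : S_asm) (K0 : ℝ)
    (hK : ∀ T : ℝ, (GG ∩ Icc T (T + 1)).Finite ∧ ((GG ∩ Icc T (T + 1)).ncard : ℝ) ≤ K0 * Real.log (|T| + 2))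
    {U : ℝ → ℝ → ℂ} {u : ℝ → ℝ → ℂ} {C L0 : ℝ} (hC : 0 < C) (hL0 : 1 ≤ L0) (hm : ∀ L, Continuous (U L))
    (hB : Bd GG U C L0)
    (hlim : ∀ g ∈ GG, ∀ x : ℝ, Tendsto (fun L : ℝ => U L (g + x / L)) atTop (𝓝 (u g x))) :
    (∀ g ∈ GG, Integrable (fun x : ℝ => ‖u g x‖ ^ 2)) ∧
    Summable (fun g : GG => (∫ x : ℝ, ‖u g x‖ ^ 2) / (1 / 4 + (g : ℝ) ^ 2)) ∧
    ∀ η : ℝ, 0 < η → ∀ᶠ L : ℝ in atTop, L * ∫ t : ℝ, ‖U L t‖ ^ 2 / (1 / 4 + t ^ 2) ≤
      ∑' g : GG, (∫ x : ℝ, ‖u g x‖ ^ 2) / (1 / 4 + (g : ℝ) ^ 2) + η := by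
  have key := h4 GG K0 hK U u (C + C ^ 2) L0 (by positivity) hL0 (fun L => (hm L).measurable)
    (fun L hL t d ht hd hd1 hg => (hB.1 L hL t d ht hd hd1 hg).trans (by
      have h1 : 0 < 1 + L * d := by
        have : 0 ≤ L := by linarith
        positivity
      gcongr
      nlinarith [sq_nonneg C]))
    (fun L hL t ht => by
      have h1 := hB.2 L hL t ht
      have h2 : ‖U L t‖ ^ 2 ≤ (C * (Real.exp (L / 2) * (1 + |t|) ^ (1 / 4 : ℝ))) ^ 2 := by gcongr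
      have h3 : (1 + |t|) ^ (1 / 2 : ℝ) = ((1 + |t|) ^ (1 / 4 : ℝ)) ^ 2 := by
        rw [← Real.rpow_natCast, ← Real.rpow_mul (by positivity)]; norm_num
      have h4 : Real.exp L = Real.exp (L / 2) ^ 2 := by
        rw [← Real.exp_nat_mul]; congr 1; push_cast; ring
      rw [h3, h4]
      calc ‖U L t‖ ^ 2 ≤ (C * (Real.exp (L / 2) * (1 + |t|) ^ (1 / 4 : ℝ))) ^ 2 := h2
        _ = C ^ 2 * Real.exp (L / 2) ^ 2 * ((1 + |t|) ^ (1 / 4 : ℝ)) ^ 2 := by ring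
        _ ≤ (C + C ^ 2) * Real.exp (L / 2) ^ 2 * ((1 + |t|) ^ (1 / 4 : ℝ)) ^ 2 := by
            gcongr
            linarith)
    hlim
  exact ⟨key.1, key.2.1, key.2.2.2⟩

/-- the localised combination -/
noncomputable def UU (S : Finset GG) (φ : ℝ → ℝ) (ψ : GG → ℝ → ℝ) (e L t : ℝ) : ℂ :=
  W φ L t + ∑ g ∈ S, Pl g (e * L) t * (W (ψ g) L t - W φ L t)

/-- its mollifier -/
noncomputable def AA (S : Finset GG) (φ : ℝ → ℝ) (ψ : GG → ℝ → ℝ) (e L t : ℝ) : ℂ :=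
  A φ L (cl t) + ∑ g ∈ S, Pl g (e * L) t * (A (ψ g) L (cl t) - A φ L (cl t))

theorem UU_eq (S : Finset GG) (φ : ℝ → ℝ) (ψ : GG → ℝ → ℝ) (e L t : ℝ) :
    UU S φ ψ e L t = riemannZeta (cl t) * AA S φ ψ e L t - 1 := by
  unfold UU AA W
  rw [mul_add, Finset.mul_sum]
  have : ∀ g ∈ S, Pl g (e * L) t * (riemannZeta (cl t) * A (ψ g) L (cl t) - 1 - (riemannZeta (cl t) * A φ L (cl t) - 1)) =
      riemannZeta (cl t) * (Pl g (e * L) t * (A (ψ g) L (cl t) - A φ L (cl t))) := fun g _ => by ring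
  rw [Finset.sum_congr rfl this]
  ring

theorem DP_AA (S : Finset GG) (φ : ℝ → ℝ) (ψ : GG → ℝ → ℝ) {e L : ℝ} {N : ℕ} (he : 0 ≤ e) (hL : 0 ≤ L)
    (hN : Real.exp (e * L + L) ≤ N) : DP N (fun t => AA S φ ψ e L t) := by
  have h1 : ⌊Real.exp L⌋₊ ≤ N := by
    have h2 : Real.exp L ≤ N := (Real.exp_le_exp.2 (by nlinarith)).trans hN
    have h3 := (Nat.floor_le (Real.exp_pos L).le).trans h2
    exact_mod_cast h3
  unfold AA
  refine DP.add ((DP_A φ L).mono h1) (DP.sum S _ fun g _ => ?_)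
  exact DP.mul (floor_mul_le hN) (DP_Pl g (e * L)) ((DP_A (ψ g) L).sub (DP_A φ L))

theorem DP_zero_cont (g L2 : ℝ) : Continuous fun t => Pl g L2 t := (DP_Pl g L2).continuous

theorem UU_continuous (S : Finset GG) (φ : ℝ → ℝ) (ψ : GG → ℝ → ℝ) (e L : ℝ) :
    Continuous (UU S φ ψ e L) := by
  unfold UU
  refine (continuous_W φ L).add (continuous_finsetSum _ fun g _ => ?_)
  exact (DP_zero_cont g (e * L)).mul ((continuous_W (ψ g) L).sub (continuous_W φ L))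

open Classical in
/-- the limit of the combination -/
noncomputable def uu (S : Finset GG) (φ : ℝ → ℝ) (ψ : GG → ℝ → ℝ) (e g x : ℝ) : ℂ :=
  Fm (mz (cl g)) φ x + ∑ g' ∈ S, (if (g' : ℝ) = g then qq e x else 0) *
    (Fm (mz (cl g)) (ψ g') x - Fm (mz (cl g)) φ x)

theorem uu_of_mem {S : Finset GG} (φ : ℝ → ℝ) (ψ : GG → ℝ → ℝ) (e x : ℝ) {g : GG} (hg : g ∈ S) :
    uu S φ ψ e g x = Fm (mz (cl g)) φ x + qq e x * (Fm (mz (cl g)) (ψ g) x - Fm (mz (cl g)) φ x) := by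
  unfold uu
  congr 1
  rw [Finset.sum_eq_single g]
  · rw [if_pos rfl]
  · intro b _ hb
    rw [if_neg (fun h => hb (Subtype.ext h)), zero_mul]
  · intro h
    exact absurd hg h

theorem uu_of_not_mem {S : Finset GG} (φ : ℝ → ℝ) (ψ : GG → ℝ → ℝ) (e x : ℝ) {g : GG} (hg : g ∉ S) :
    uu S φ ψ e g x = Fm (mz (cl g)) φ x := by
  unfold uu
  rw [Finset.sum_eq_zero, add_zero]
  intro b hb
  rw [if_neg (fun h => hg (by rwa [← Subtype.ext h])), zero_mul]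

/-- `ζ A - 1` tends to the limit near a zero -/
theorem W_lim (h3 : S_lim) (hRH : RiemannHypothesis) {β : ℝ} (hβ : 0 < β) {φ : ℝ → ℝ} (hφ : Wt β φ) {g : ℝ}
    (hg : g ∈ GG) (x : ℝ) : Tendsto (fun L : ℝ => W φ L (g + x / L)) atTop (𝓝 (Fm (mz (cl g)) φ x)) := by
  have h := (h3 hRH β φ hβ hφ g x hg).sub_const 1
  rw [add_sub_cancel_left] at h
  exact h

theorem UU_lim (h3 : S_lim) (h6 : S_loc) (hRH : RiemannHypothesis) {β : ℝ} (hβ : 0 < β) {φ : ℝ → ℝ}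
    (hφ : Wt β φ) (S : Finset GG) {ψ : GG → ℝ → ℝ} (hψ : ∀ g ∈ S, Wt β (ψ g)) {e : ℝ} (he : 0 < e)
    {g : ℝ} (hg : g ∈ GG) (x : ℝ) :
    Tendsto (fun L : ℝ => UU S φ ψ e L (g + x / L)) atTop (𝓝 (uu S φ ψ e g x)) := by
  unfold UU uu
  refine (W_lim h3 hRH hβ hφ hg x).add (tendsto_finsetSum _ fun g' hg' => ?_)
  refine Tendsto.mul ?_ ((W_lim h3 hRH hβ (hψ g' hg') hg x).sub (W_lim h3 hRH hβ hφ hg x))
  split_ifs with h
  · rw [h]
    exact h6.2.1 g e x he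
  · exact h6.2.2 g' g e x he (fun h' => h h'.symm)

theorem Bd_UU (h6 : S_loc) {φ : ℝ → ℝ} {S : Finset GG} {ψ : GG → ℝ → ℝ} {e : ℝ} (he : 0 < e)
    (hφ : ∃ C L0 : ℝ, 0 < C ∧ 1 ≤ L0 ∧ Bd GG (W φ) C L0)
    (hψ : ∀ g ∈ S, ∃ C L0 : ℝ, 0 < C ∧ 1 ≤ L0 ∧ Bd GG (W (ψ g)) C L0) :
    ∃ C L0 : ℝ, 0 < C ∧ 1 ≤ L0 ∧ Bd GG (UU S φ ψ e) C L0 := by
  classical
  obtain ⟨C, L0, hC, hL0, hB⟩ := hφ
  have hex : ∃ L1 : ℝ, L0 ≤ L1 ∧ 1 / e ≤ L1 ∧ ∀ g ∈ S, ∃ C : ℝ, 0 < C ∧ Bd GG (W (ψ g)) C L1 := by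
    induction S using Finset.induction_on with
    | empty => exact ⟨max L0 (1 / e), le_max_left _ _, le_max_right _ _, fun g hg => absurd hg (Finset.notMem_empty g)⟩
    | insert a s ha ih =>
        obtain ⟨L1, h1, h2, h3⟩ := ih fun g hg => hψ g (Finset.mem_insert_of_mem hg)
        obtain ⟨C', L0', hC', hL0', hB'⟩ := hψ a (Finset.mem_insert_self a s)
        refine ⟨max L1 L0', h1.trans (le_max_left _ _), h2.trans (le_max_left _ _), fun g hg => ?_⟩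
        rcases Finset.mem_insert.1 hg with rfl | hg
        · exact ⟨C', hC', hB'.mono (by linarith) le_rfl (le_max_right _ _)⟩
        · obtain ⟨C'', hC'', hB''⟩ := h3 g hg
          exact ⟨C'', hC'', hB''.mono (by linarith) le_rfl (le_max_left _ _)⟩
  obtain ⟨L1, hL1, he1, hS⟩ := hex
  have hB1 : Bd GG (W φ) C L1 := hB.mono (by linarith) le_rfl hL1
  choose! c hc hcB using hS
  have hsum : Bd GG (fun L t => ∑ g ∈ S, Pl g (e * L) t * (W (ψ g) L t - W φ L t)) (∑ g ∈ S, 2 * (c g + C)) L1 := by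
    refine Bd.sum S fun g hg => ?_
    refine Bd.bmul ((hcB g hg).sub hB1) fun L hL t => h6.1 g (e * L) t ?_
    have : 1 / e ≤ L := he1.trans hL
    rw [div_le_iff₀ he] at this
    linarith [mul_comm e L]
  refine ⟨C + ∑ g ∈ S, 2 * (c g + C), L1, ?_, hL0.trans hL1, ?_⟩
  · have : 0 ≤ ∑ g ∈ S, 2 * (c g + C) := Finset.sum_nonneg fun g hg => by
      have := hc g hg
      positivity
    linarith
  · exact hB1.add hsum

theorem JJ_le (h7 : S_mel) {N : ℕ} (hN : 1 ≤ N) {F : ℝ → ℂ} (hF : DP N F) :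
    ∃ a : ℕ → ℝ, JJ N a ≤ 1 / (2 * Real.pi) * ∫ t : ℝ, ‖riemannZeta (cl t) * F t - 1‖ ^ 2 / (1 / 4 + t ^ 2) := by
  obtain ⟨b, hb⟩ := hF
  refine ⟨fun n => -(b n).re, ?_⟩
  obtain ⟨-, hi, he⟩ := h7 N (fun n => -b n) hN
  have e1 : ∀ t : ℝ, ‖1 + riemannZeta (cl t) * ∑ n ∈ Finset.Icc 1 N, -b n * (n : ℂ) ^ (-cl t)‖ =
      ‖riemannZeta (cl t) * F t - 1‖ := by
    intro t
    rw [hb t, ← norm_neg]
    congr 1
    simp only [neg_mul, Finset.sum_neg_distrib]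
    ring
  simp only [e1] at he
  rw [← he]
  unfold JJ
  refine integral_mono_of_nonneg (Eventually.of_forall fun x => sq_nonneg _) hi
    (Eventually.of_forall fun x => ?_)
  have e2 : dif N (fun n => -(b n).re) x = (difC N (fun n => -b n) x).re := by
    unfold dif difC
    rw [Complex.sub_re, Complex.ofReal_re, Complex.re_sum]
    congr 1
    refine Finset.sum_congr rfl fun n _ => ?_
    rw [Complex.re_mul_ofReal, Complex.neg_re]
  beta_reduce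
  rw [e2, ← sq_abs]
  have := Complex.abs_re_le_norm (difC N (fun n => -b n) x)
  gcongr

end Pool.Agent.Q149.BD
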